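import Mathlib
import Pool.Agent.Helper848.SD.Up
import Pool.Agent.Helper848.SD.Low

set_option autoImplicit false

/-!
# The maximum sphere dimension grows at least linearly

Whether two slices of the unit ball meet is decided by the signs of quadratic polynomials in their
parameters, and a Warren-type bound limits the number of sign patterns.
-/

namespace Pool.Agent.Results.MP_2be980_co.LinearLowerBound

open Pool.Agent.Helper848.SD

/-- If `18 (d + 3) < n`, then some graph on `n` vertices lies in none of `𝒮_1, …, 𝒮_d`; consequently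
the maximum sphere dimension satisfies `f n ≥ (n - 54) / 18` for all `n`. -/
theorem result : (∀ n d : ℕ, 1 ≤ d → 18 * (d + 3) < n →
      ∃ G : SimpleGraph (Fin n), ∀ d' ≤ d, ¬ SphereClass d' G) ∧
    ∀ n : ℕ, n ≤ 18 * f n + 54 := by
  refine ⟨fun n d hd hn => exists_not_class n d hd hn, ?_⟩
  intro n
  by_contra hcon
  push Not at hcon
  have hn : 3 ≤ n := by omega
  have hf : 1 ≤ f n := (sd_le n hn ⊥).1.trans (le_csSup (bdd n hn) ⟨⊥, rfl⟩)
  obtain ⟨G, hG⟩ := exists_not_class n (f n) hf (by omega)
  have hle : sd G ≤ f n := le_csSup (bdd n hn) ⟨G, rfl⟩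
  obtain ⟨d, h1, h2, h3⟩ := exists_class n hn G
  have hne : {d | 1 ≤ d ∧ SphereClass d G}.Nonempty := ⟨d, h1, h3⟩
  exact hG (sd G) hle (Nat.sInf_mem hne).2

end Pool.Agent.Results.MP_2be980_co.LinearLowerBound
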