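import Mathlib
import Pool.Agent.Helper848.SD.Comb2

set_option autoImplicit false

/-!
# The maximum sphere dimension is at most `n - (2 / 5) √(n / log n)`

A graph lies in `𝒮_d` if its vertices can be represented by vectors of equal norm in `ℝ ^ (d + 1)`
so that adjacency is decided by comparing inner products with a nonnegative threshold. All but `s`
vertices get their own coordinate axis, and each of the `s` other vertices `b i` shares the axis of
another vertex `a i`, with the same or the opposite sign. A pair is rich if it lies in many triples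
with an odd number of edges. If there are `s` disjoint rich pairs `{a i, b i}`, then a block of about
`log s` further vertices, each forming an odd triple with `a i` and `b i`, is used to correct the
inner products of `b i` with all `b j`. Otherwise there is an independent set of size `2 s`, and it is
put on `s` axes in opposite pairs.
-/

namespace Pool.Agent.Results.MP_2be980_co.SqrtSaving

open Pool.Agent.Helper848.SD

/-- If `s ≥ 1` and `n ≥ 5 s ^ 2 (⌊log₂ s⌋ + 3)`, then every graph on `n` vertices lies in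
`𝒮_(n - s - 1)`, and `f n ≤ n - s - 1`. -/
theorem saving : ∀ n s : ℕ, 1 ≤ s → 5 * s ^ 2 * (Nat.log 2 s + 3) ≤ n →
    (∀ G : SimpleGraph (Fin n), SphereClass (n - s - 1) G) ∧ f n ≤ n - s - 1 := by
  intro n s hs hn
  have hlt : s < 2 ^ (Nat.log 2 s + 1) := Nat.lt_pow_succ_log_self (by norm_num) s
  have hn' : 4 * s * (2 * s + s * (Nat.log 2 s + 1)) + 2 * s + 1 ≤ n := by
    refine le_trans ?_ hn
    generalize Nat.log 2 s = l
    have h1 : s ≤ s ^ 2 := Nat.le_self_pow (by norm_num) s
    have h2 : 1 ≤ s ^ 2 := Nat.one_le_pow _ _ hs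
    have h3 : 4 * s * (2 * s + s * (l + 1)) = 4 * (s ^ 2 * l) + 12 * s ^ 2 := by ring
    have h4 : 5 * s ^ 2 * (l + 3) = 5 * (s ^ 2 * l) + 15 * s ^ 2 := by ring
    rw [h3, h4]
    omega
  have hsn : 5 * s ≤ n := by
    have h1 : s ≤ s ^ 2 := Nat.le_self_pow (by norm_num) s
    have h2 : 5 * s ^ 2 * 1 ≤ 5 * s ^ 2 * (Nat.log 2 s + 3) :=
      Nat.mul_le_mul_left _ (by omega)
    omega
  have hcl : ∀ G : SimpleGraph (Fin n), SphereClass (n - s - 1) G := by
    intro G
    apply class_saving2 G s (Nat.log 2 s + 1) (n - s - 1) hs hlt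
    · rw [Fintype.card_fin]
      exact hn'
    · rw [Fintype.card_fin]
      omega
  refine ⟨hcl, ?_⟩
  have hne : {d | ∃ G : SimpleGraph (Fin n), sd G = d}.Nonempty := ⟨_, ⊥, rfl⟩
  apply csSup_le hne
  rintro d ⟨G, rfl⟩
  exact Nat.sInf_le (show (n - s - 1) ∈ {d | 1 ≤ d ∧ SphereClass d G} from ⟨by omega, hcl G⟩)

/-- For every `n ≥ 1024` there is `d ≥ 1` with `d ≤ n - (2 / 5) √(n / log n)` such that every graph
on `n` vertices lies in `𝒮_d`; in particular `f n ≤ d ≤ n - (2 / 5) √(n / log n)`. -/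
theorem result : ∀ n : ℕ, 1024 ≤ n →
    ∃ d : ℕ, 1 ≤ d ∧ (d : ℝ) ≤ n - 2 / 5 * √(n / Real.log n) ∧
      (∀ G : SimpleGraph (Fin n), SphereClass d G) ∧ f n ≤ d := by
  intro n hn
  have hn1 : (1024 : ℝ) ≤ n := by exact_mod_cast hn
  have hn0 : (0 : ℝ) < n := by linarith
  set L := Real.log n with hL
  have hlog2 := Real.log_two_gt_d9
  have hL6 : 69 / 10 ≤ L := by
    have h1 : Real.log 1024 ≤ L := Real.log_le_log (by norm_num) hn1
    have h2 : Real.log 1024 = 10 * Real.log 2 := by
      rw [show (1024 : ℝ) = 2 ^ (10 : ℕ) by norm_num, Real.log_pow]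
      norm_num
    linarith
  have hL0 : 0 < L := by linarith
  have hLn : L ≤ n / 16 := by
    have h1 : Real.log √n = L / 2 := Real.log_sqrt hn0.le
    have h2 : Real.log √n ≤ √n - 1 := Real.log_le_sub_one_of_pos (Real.sqrt_pos.2 hn0)
    have h3 : 32 ≤ √(n : ℝ) := by
      apply Real.le_sqrt_of_sq_le
      norm_num
      linarith
    have h4 : √(n : ℝ) * √(n : ℝ) = n := Real.mul_self_sqrt hn0.le
    nlinarith
  set u := √(n / L) with hu
  have hu2 : u ^ 2 = n / L := Real.sq_sqrt (by positivity)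
  have huL : u ^ 2 * L = n := by
    rw [hu2]
    field_simp
  have hu4 : 4 ≤ u := by
    apply Real.le_sqrt_of_sq_le
    rw [le_div_iff₀ hL0]
    linarith
  have hu0 : 0 < u := by linarith
  set s := ⌊2 / 5 * u⌋₊ with hs
  have hs1 : 1 ≤ s := Nat.le_floor (by push_cast; linarith)
  have hsu : (s : ℝ) ≤ 2 / 5 * u := Nat.floor_le (by linarith)
  have hsu' : 2 / 5 * u < s + 1 := Nat.lt_floor_add_one _
  have hs0 : (1 : ℝ) ≤ s := by exact_mod_cast hs1
  have hs2 : (s : ℝ) ^ 2 ≤ 4 / 25 * u ^ 2 := by nlinarith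
  have hs2n : (s : ℝ) ^ 2 ≤ n := by nlinarith
  have hlog : 2 * ((Nat.log 2 s : ℝ) * Real.log 2) ≤ L := by
    have h1 : 2 ^ Nat.log 2 s ≤ s := Nat.pow_log_le_self 2 (by omega)
    have h2 : ((2 : ℝ) ^ Nat.log 2 s) ≤ s := by exact_mod_cast h1
    have h3 := Real.log_le_log (by positivity) h2
    rw [Real.log_pow] at h3
    have h4 := Real.log_le_log (by positivity) hs2n
    rw [Real.log_pow] at h4
    push_cast at h4
    linarith
  have hlog' : (Nat.log 2 s : ℝ) ≤ 73 / 100 * L := by
    have h4 : (0 : ℝ) ≤ Nat.log 2 s := Nat.cast_nonneg _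
    nlinarith
  have hcond : 5 * s ^ 2 * (Nat.log 2 s + 3) ≤ n := by
    have h : (5 : ℝ) * s ^ 2 * (Nat.log 2 s + 3) ≤ n := by
      have h1 : (Nat.log 2 s : ℝ) + 3 ≤ 5 / 4 * L := by linarith
      have h2 : (5 : ℝ) * s ^ 2 * (Nat.log 2 s + 3) ≤ 5 * (4 / 25 * u ^ 2) * (5 / 4 * L) := by
        apply mul_le_mul _ h1 (by positivity) (by positivity)
        linarith
      have h3 : 5 * (4 / 25 * u ^ 2) * (5 / 4 * L) = u ^ 2 * L := by ring
      rw [h3, huL] at h2
      exact h2
    exact_mod_cast h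
  obtain ⟨hcl, hf⟩ := saving n s hs1 hcond
  have hs1n : s + 2 ≤ n := by
    have h1 : (s : ℝ) + 2 ≤ n := by nlinarith
    exact_mod_cast h1
  refine ⟨n - s - 1, by omega, ?_, hcl, hf⟩
  have h1 : n - s - 1 + (s + 1) = n := by omega
  have h2 : ((n - s - 1 : ℕ) : ℝ) + (s + 1) = n := by exact_mod_cast h1
  linarith

end Pool.Agent.Results.MP_2be980_co.SqrtSaving
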