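import Mathlib
import Pool.Agent.Helper848.SD.Up

set_option autoImplicit false

/-!
# Every graph on `n ≥ 4` vertices has sphere dimension at most `n - 3`

A symmetric matrix with unit diagonal, entries of absolute value at most `1` on edges and larger than
`1` on non-edges, at most one negative and at most `d + 1` positive eigenvalues is the Gram matrix of
the normal vectors of hyperplanes whose slices of the unit ball of `ℝ ^ (d + 1)` represent the graph.
If the graph has two disjoint non-edges, a path from a perturbation of `2 I - J` to a matrix with two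
non-positive eigenvalues passes through a matrix whose second smallest eigenvalue is zero. All other
graphs are circle graphs.
-/

namespace Pool.Agent.Results.MP_2be980_co.UpperBound

open Pool.Agent.Helper848.SD

/-- Every graph on `n ≥ 3` vertices lies in `𝒮_d` for some `1 ≤ d ≤ max 1 (n - 3)`, hence the maximum
sphere dimension `f n` is at most `max 1 (n - 3)`, which is `n - 3` for `n ≥ 4`. -/
theorem result : ∀ n : ℕ, 3 ≤ n →
    (∀ G : SimpleGraph (Fin n), ∃ d : ℕ, 1 ≤ d ∧ d ≤ max 1 (n - 3) ∧ SphereClass d G) ∧
      f n ≤ max 1 (n - 3) := by
  intro n hn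
  refine ⟨exists_class n hn, ?_⟩
  have hne : {d | ∃ G : SimpleGraph (Fin n), sd G = d}.Nonempty := ⟨_, ⊥, rfl⟩
  apply csSup_le hne
  rintro d ⟨G, rfl⟩
  exact (sd_le n hn G).2

end Pool.Agent.Results.MP_2be980_co.UpperBound
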